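import Mathlib

/-!
MP_811ee8_lc: a correct translation from binary decision diagrams to mental programs with
quasi-polynomial output length.
-/

set_option autoImplicit false

namespace Pool.Agent.Results.MP_811ee8_lc.QuasiPolynomial

/-- Boolean formulas over `V`. -/
inductive BForm (V : Type) where
  | var : V → BForm V
  | top : BForm V
  | bot : BForm V
  | neg : BForm V → BForm V
  | and : BForm V → BForm V → BForm V
  | or : BForm V → BForm V → BForm V

/-- Number of symbols (brackets around binary connectives included). -/
def BForm.length {V : Type} : BForm V → ℕ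
  | .var _ => 1
  | .top => 1
  | .bot => 1
  | .neg β => β.length + 1
  | .and β γ => β.length + γ.length + 3
  | .or β γ => β.length + γ.length + 3

/-- Truth of a Boolean formula in a state. -/
def BForm.Sat {V : Type} (s : Set V) : BForm V → Prop
  | .var p => p ∈ s
  | .top => True
  | .bot => False
  | .neg β => ¬ β.Sat s
  | .and β γ => β.Sat s ∧ γ.Sat s
  | .or β γ => β.Sat s ∨ γ.Sat s

/-- Mental programs over `V`: `p ← ⊤`, `p ← ⊥`, `β?`, union, composition, intersection. -/
inductive Prog (V : Type) where
  | setTop : V → Prog V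
  | setBot : V → Prog V
  | test : BForm V → Prog V
  | union : Prog V → Prog V → Prog V
  | comp : Prog V → Prog V → Prog V
  | inter : Prog V → Prog V → Prog V

/-- Number of symbols (brackets around binary operations included). -/
def Prog.length {V : Type} : Prog V → ℕ
  | .setTop _ => 3
  | .setBot _ => 3
  | .test β => β.length + 1
  | .union π ρ => π.length + ρ.length + 3
  | .comp π ρ => π.length + ρ.length + 3
  | .inter π ρ => π.length + ρ.length + 3

/-- The relation between states denoted by a program. -/
def Prog.Rel {V : Type} : Prog V → Set V → Set V → Prop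
  | .setTop p, s, t => t = s ∪ {p}
  | .setBot p, s, t => t = s \ {p}
  | .test β, s, t => t = s ∧ β.Sat s
  | .union π ρ, s, t => π.Rel s t ∨ ρ.Rel s t
  | .comp π ρ, s, t => ∃ u, π.Rel s u ∧ ρ.Rel u t
  | .inter π ρ, s, t => π.Rel s t ∧ ρ.Rel s t

/-- Ordered binary decision diagrams over the variables `X`. A node is a truth value or a variable
with a low and a high successor; along an edge between inner nodes the variable strictly increases
in the order of variables given by `rank`. -/
structure BDD (X : Type) where
  size : ℕ
  node : Fin size → Bool ⊕ (X × Fin size × Fin size)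
  root : Fin size
  rank : X → ℕ
  rank_inj : Function.Injective rank
  ordered : ∀ i x lo hi, node i = .inr (x, lo, hi) → ∀ j, (j = lo ∨ j = hi) →
    ∀ y lo' hi', node j = .inr (y, lo', hi') → rank x < rank y

/-- Node `i` evaluates to true under the valuation `σ` (the set of true variables): following low
successors at false variables and high successors at true ones leads to the node `⊤`. -/
inductive BDD.Sat {X : Type} (Ω : BDD X) (σ : Set X) : Fin Ω.size → Prop
  | top {i : Fin Ω.size} : Ω.node i = .inl true → BDD.Sat Ω σ i
  | low {i : Fin Ω.size} {x : X} {lo hi : Fin Ω.size} :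
      Ω.node i = .inr (x, lo, hi) → x ∉ σ → BDD.Sat Ω σ lo → BDD.Sat Ω σ i
  | high {i : Fin Ω.size} {x : X} {lo hi : Fin Ω.size} :
      Ω.node i = .inr (x, lo, hi) → x ∈ σ → BDD.Sat Ω σ hi → BDD.Sat Ω σ i

/-- The relation `R_Ω = {(s, t) : s ∪ t' ⊨ Ω}`; `p` is `Sum.inl p` and `p'` is `Sum.inr p`. -/
def BDD.Rel {V : Type} (Ω : BDD (V ⊕ V)) (s t : Set V) : Prop :=
  Ω.Sat (Sum.inl '' s ∪ Sum.inr '' t) Ω.root

/-! ### Evaluation as iteration -/

open Classical in
/-- The successor of a node under a valuation; leaves are fixed. -/
noncomputable def next {X : Type} (Ω : BDD X) (σ : Set X) (i : Fin Ω.size) : Fin Ω.size :=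
  match Ω.node i with
  | .inl _ => i
  | .inr (x, lo, hi) => if x ∈ σ then hi else lo

theorem sat_of_iterate {X : Type} (Ω : BDD X) (σ : Set X) (m : ℕ) :
    ∀ i, Ω.node ((next Ω σ)^[m] i) = .inl true → Ω.Sat σ i := by
  induction m with
  | zero => intro i h; exact .top h
  | succ m ih =>
    intro i h
    rw [Function.iterate_succ_apply] at h
    have h1 := ih _ h
    rcases hn : Ω.node i with b | ⟨x, lo, hi⟩
    · have : next Ω σ i = i := by simp [next, hn]
      rw [this] at h1; exact h1
    · by_cases hx : x ∈ σ
      · have : next Ω σ i = hi := by simp [next, hn, hx]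
        rw [this] at h1
        exact .high hn hx h1
      · have : next Ω σ i = lo := by simp [next, hn, hx]
        rw [this] at h1
        exact .low hn hx h1

theorem iterate_of_sat {X : Type} (Ω : BDD X) (σ : Set X) {i : Fin Ω.size} (h : Ω.Sat σ i) :
    ∃ m, Ω.node ((next Ω σ)^[m] i) = .inl true := by
  induction h with
  | top h => exact ⟨0, h⟩
  | @low i x lo hi hn hx _ ih =>
    obtain ⟨m, hm⟩ := ih
    refine ⟨m + 1, ?_⟩
    have : next Ω σ i = lo := by simp [next, hn, hx]
    rw [Function.iterate_succ_apply, this]; exact hm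
  | @high i x lo hi hn hx _ ih =>
    obtain ⟨m, hm⟩ := ih
    refine ⟨m + 1, ?_⟩
    have : next Ω σ i = hi := by simp [next, hn, hx]
    rw [Function.iterate_succ_apply, this]; exact hm

theorem next_top {X : Type} (Ω : BDD X) (σ : Set X) {i : Fin Ω.size} {b : Bool}
    (h : Ω.node i = .inl b) : next Ω σ i = i := by simp [next, h]

theorem iterate_top {X : Type} (Ω : BDD X) (σ : Set X) {i : Fin Ω.size} {b : Bool}
    (h : Ω.node i = .inl b) (m : ℕ) : (next Ω σ)^[m] i = i :=
  Function.iterate_fixed (next_top Ω σ h) m

/-- the leaf `⊤` is reached within `M` steps, for any `M` at least the number of nodes. -/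
theorem sat_iff {X : Type} (Ω : BDD X) (σ : Set X) {M : ℕ} (hM : Ω.size ≤ M) (i : Fin Ω.size) :
    Ω.Sat σ i ↔ Ω.node ((next Ω σ)^[M] i) = .inl true := by
  classical
  refine ⟨fun h => ?_, sat_of_iterate Ω σ M i⟩
  have hex := iterate_of_sat Ω σ h
  let m := Nat.find hex
  have hm : Ω.node ((next Ω σ)^[m] i) = .inl true := Nat.find_spec hex
  have hmin : ∀ k < m, ¬ Ω.node ((next Ω σ)^[k] i) = .inl true := fun k hk => Nat.find_min hex hk
  have hlt : m < Ω.size := by
    by_contra hge
    push Not at hge
    have : ¬ Function.Injective (fun k : Fin (m + 1) => (next Ω σ)^[k.1] i) := by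
      intro hinj
      have := Fintype.card_le_of_injective _ hinj
      simp at this
      omega
    rw [Function.not_injective_iff] at this
    obtain ⟨⟨a, ha⟩, ⟨b, hb⟩, hab, hne⟩ := this
    simp only at hab
    have hne' : a ≠ b := fun h => hne (Fin.ext h)
    -- wlog a < b
    have key : ∀ a b : ℕ, a < b → b ≤ m → (next Ω σ)^[a] i = (next Ω σ)^[b] i → False := by
      intro a b hab hbm he
      have h1 : (next Ω σ)^[m - b] ((next Ω σ)^[b] i) = (next Ω σ)^[m] i := by
        rw [← Function.iterate_add_apply]
        congr 1
        omega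
      rw [← he, ← Function.iterate_add_apply] at h1
      apply hmin (m - b + a) (by omega)
      rw [h1]; exact hm
    rcases Nat.lt_or_gt_of_ne hne' with h | h
    · exact key a b h (by omega) hab
    · exact key b a h (by omega) hab.symm
  have : M = (M - m) + m := by omega
  rw [this, Function.iterate_add_apply, iterate_top Ω σ hm, hm]

/-! ### Programs -/

variable {V : Type}

/-- Arbitrary change of the variables in a list. -/
def chg : List V → Prog V
  | [] => .test .top
  | p :: l => .comp (.union (.setTop p) (.setBot p)) (chg l)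

theorem chg_rel (l : List V) : ∀ s t : Set V, (chg l).Rel s t ↔ ∀ p, p ∉ l → (p ∈ s ↔ p ∈ t) := by
  induction l with
  | nil =>
    intro s t
    simp only [chg, Prog.Rel, BForm.Sat, and_true, List.not_mem_nil, not_false_eq_true,
      forall_true_left]
    constructor
    · rintro rfl p; rfl
    · intro h; exact (Set.ext h).symm
  | cons p l ih =>
    intro s t
    simp only [chg, Prog.Rel, ih]
    constructor
    · rintro ⟨u, hu | hu, h⟩ q hq
      · rw [List.mem_cons, not_or] at hq
        rw [← h q hq.2, hu]
        simp [hq.1]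
      · rw [List.mem_cons, not_or] at hq
        rw [← h q hq.2, hu]
        simp [hq.1]
    · intro h
      by_cases hp : p ∈ t
      · refine ⟨s ∪ {p}, Or.inl rfl, fun q hq => ?_⟩
        by_cases hqp : q = p
        · subst hqp; simp [hp]
        · rw [← h q (by rw [List.mem_cons, not_or]; exact ⟨hqp, hq⟩)]
          simp [hqp]
      · refine ⟨s \ {p}, Or.inr rfl, fun q hq => ?_⟩
        by_cases hqp : q = p
        · subst hqp; simp [hp]
        · rw [← h q (by rw [List.mem_cons, not_or]; exact ⟨hqp, hq⟩)]
          simp [hqp]

theorem chg_length (l : List V) : (chg l).length = 12 * l.length + 2 := by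
  induction l with
  | nil => rfl
  | cons p l ih => simp only [chg, Prog.length, ih, List.length_cons]; omega

/-- The universal relation. -/
noncomputable def uni (V : Type) [Fintype V] : Prog V := chg (Finset.univ.toList : List V)

theorem uni_rel [Fintype V] (s t : Set V) : (uni V).Rel s t := by
  unfold uni
  rw [chg_rel]
  intro p hp
  simp at hp

theorem uni_length [Fintype V] : (uni V).length = 12 * Fintype.card V + 2 := by
  unfold uni
  rw [chg_length]; simp

/-- The empty relation. -/
def emp : Prog V := .test .bot

theorem emp_rel (s t : Set V) : ¬ (emp : Prog V).Rel s t := by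
  simp [emp, Prog.Rel, BForm.Sat]

/-- Program for the literal `x` (`b = true`) or `¬ x` (`b = false`). -/
noncomputable def lit [Fintype V] : V ⊕ V → Bool → Prog V
  | .inl p, true => .comp (.test (.var p)) (uni V)
  | .inl p, false => .comp (.test (.neg (.var p))) (uni V)
  | .inr p, true => .comp (uni V) (.test (.var p))
  | .inr p, false => .comp (uni V) (.test (.neg (.var p)))

theorem lit_rel [Fintype V] (x : V ⊕ V) (b : Bool) (s t : Set V) :
    (lit x b).Rel s t ↔ (x ∈ (Sum.inl '' s ∪ Sum.inr '' t : Set (V ⊕ V)) ↔ b = true) := by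
  rcases x with p | p <;> rcases b with _ | _ <;>
    simp [lit, Prog.Rel, BForm.Sat, uni_rel]

theorem lit_length [Fintype V] (x : V ⊕ V) (b : Bool) :
    (lit x b).length ≤ 12 * Fintype.card V + 8 := by
  rcases x with p | p <;> rcases b with _ | _ <;>
    simp only [lit, Prog.length, BForm.length, uni_length] <;> omega

/-- Union of a list of programs. -/
def bigUnion : List (Prog V) → Prog V
  | [] => emp
  | π :: l => .union π (bigUnion l)

theorem bigUnion_rel (l : List (Prog V)) (s t : Set V) :
    (bigUnion l).Rel s t ↔ ∃ π ∈ l, π.Rel s t := by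
  induction l with
  | nil => simp [bigUnion, emp_rel]
  | cons π l ih => simp only [bigUnion, Prog.Rel, ih, List.mem_cons, exists_eq_or_imp]

theorem bigUnion_length (l : List (Prog V)) (S : ℕ) (h : ∀ π ∈ l, π.length ≤ S) :
    (bigUnion l).length ≤ l.length * (S + 3) + 2 := by
  induction l with
  | nil => simp [bigUnion, emp, Prog.length, BForm.length]
  | cons π l ih =>
    have h1 := ih fun ρ hρ => h ρ (List.mem_cons_of_mem _ hρ)
    have h2 := h π List.mem_cons_self
    simp only [bigUnion, Prog.length, List.length_cons]
    rw [Nat.add_mul]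
    omega

open Classical in
/-- Program for `next^[2^K] u = v`. -/
noncomputable def reach [Fintype V] (Ω : BDD (V ⊕ V)) : ℕ → Fin Ω.size → Fin Ω.size → Prog V
  | 0, u, v => match Ω.node u with
    | .inl _ => if u = v then uni V else emp
    | .inr (x, lo, hi) => .union (if hi = v then lit x true else emp)
        (if lo = v then lit x false else emp)
  | K + 1, u, v => bigUnion ((List.finRange Ω.size).map fun w =>
      .inter (reach Ω K u w) (reach Ω K w v))

theorem reach_rel [Fintype V] (Ω : BDD (V ⊕ V)) (s t : Set V) (K : ℕ) : ∀ u v,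
    (reach Ω K u v).Rel s t ↔
      (next Ω (Sum.inl '' s ∪ Sum.inr '' t))^[2 ^ K] u = v := by
  induction K with
  | zero =>
    intro u v
    rw [pow_zero, Function.iterate_one]
    rcases hn : Ω.node u with b | ⟨x, lo, hi⟩
    · rw [next_top Ω _ hn]
      simp only [reach, hn]
      by_cases h : u = v
      · simp [h, uni_rel]
      · simp [h, emp_rel]
    · simp only [reach, hn, Prog.Rel]
      by_cases hx : x ∈ (Sum.inl '' s ∪ Sum.inr '' t : Set (V ⊕ V))
      · have hne : next Ω (Sum.inl '' s ∪ Sum.inr '' t) u = hi := by
          unfold next; rw [hn]; simp only; rw [if_pos hx]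
        rw [hne]
        constructor
        · rintro (h | h)
          · by_contra hc
            rw [if_neg hc] at h
            exact emp_rel _ _ h
          · exfalso
            split_ifs at h
            · rw [lit_rel] at h
              simp [hx] at h
            · exact emp_rel _ _ h
        · intro h
          left
          rw [if_pos h, lit_rel]
          simp [hx]
      · have hne : next Ω (Sum.inl '' s ∪ Sum.inr '' t) u = lo := by
          unfold next; rw [hn]; simp only; rw [if_neg hx]
        rw [hne]
        constructor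
        · rintro (h | h)
          · exfalso
            split_ifs at h
            · rw [lit_rel] at h
              simp [hx] at h
            · exact emp_rel _ _ h
          · by_contra hc
            rw [if_neg hc] at h
            exact emp_rel _ _ h
        · intro h
          right
          rw [if_pos h, lit_rel]
          simp [hx]
  | succ K ih =>
    intro u v
    simp only [reach, bigUnion_rel, List.mem_map, List.mem_finRange, true_and,
      exists_exists_eq_and, Prog.Rel, ih]
    have : 2 ^ (K + 1) = 2 ^ K + 2 ^ K := by ring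
    rw [this, Function.iterate_add_apply]
    constructor
    · rintro ⟨w, h1, h2⟩
      rw [h1, h2]
    · intro h
      exact ⟨_, rfl, h⟩

theorem reach_length [Fintype V] (Ω : BDD (V ⊕ V)) (K : ℕ) : ∀ u v,
    (reach Ω K u v).length ≤ (10 * Ω.size) ^ K * (24 * (Fintype.card V + 1)) := by
  induction K with
  | zero =>
    intro u v
    rw [pow_zero, one_mul]
    have he : (emp : Prog V).length = 2 := rfl
    rcases hn : Ω.node u with b | ⟨x, lo, hi⟩
    · simp only [reach, hn]
      split_ifs
      · rw [uni_length]; omega
      · rw [he]; omega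
    · simp only [reach, hn, Prog.length]
      have h1 := lit_length (V := V) x true
      have h2 := lit_length (V := V) x false
      have h3 : (if hi = v then lit x true else emp : Prog V).length ≤
          12 * Fintype.card V + 8 := by
        split_ifs
        · exact h1
        · rw [he]; omega
      have h4 : (if lo = v then lit x false else emp : Prog V).length ≤
          12 * Fintype.card V + 8 := by
        split_ifs
        · exact h2
        · rw [he]; omega
      omega
  | succ K ih =>
    intro u v
    simp only [reach]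
    set S := (10 * Ω.size) ^ K * (24 * (Fintype.card V + 1)) with hS
    have h1 := bigUnion_length ((List.finRange Ω.size).map fun w =>
      Prog.inter (reach Ω K u w) (reach Ω K w v)) (2 * S + 3) (by
        intro π hπ
        rw [List.mem_map] at hπ
        obtain ⟨w, -, rfl⟩ := hπ
        simp only [Prog.length]
        have := ih u w
        have := ih w v
        omega)
    refine h1.trans ?_
    rw [List.length_map, List.length_finRange, pow_succ]
    have hN : 1 ≤ Ω.size := by
      have := Ω.root.2; omega
    have hSpos : 1 ≤ S := by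
      rw [hS]
      have : 0 < (10 * Ω.size) ^ K := by positivity
      nlinarith
    have h2 : (10 * Ω.size) ^ K * (10 * Ω.size) * (24 * (Fintype.card V + 1)) =
        10 * Ω.size * S := by rw [hS]; ring
    rw [h2]
    nlinarith

open Classical in
/-- The part of the translation for the possible end node `v`. -/
noncomputable def part [Fintype V] (Ω : BDD (V ⊕ V)) (v : Fin Ω.size) : Prog V :=
  if Ω.node v = .inl true then reach Ω (Nat.log 2 Ω.size + 1) Ω.root v else emp

/-- The translation. -/
noncomputable def tau [Fintype V] (Ω : BDD (V ⊕ V)) : Prog V :=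
  bigUnion ((List.finRange Ω.size).map (part Ω))

theorem tau_rel [Fintype V] (Ω : BDD (V ⊕ V)) (s t : Set V) :
    (tau Ω).Rel s t ↔ Ω.Rel s t := by
  have hM : Ω.size ≤ 2 ^ (Nat.log 2 Ω.size + 1) :=
    (Nat.lt_pow_succ_log_self (by norm_num) _).le
  unfold BDD.Rel
  rw [sat_iff Ω _ hM]
  simp only [tau, part, bigUnion_rel, List.mem_map, List.mem_finRange, true_and,
    exists_exists_eq_and]
  constructor
  · rintro ⟨v, hv⟩
    split_ifs at hv with h
    · rw [reach_rel] at hv
      rw [hv]; exact h
    · exact absurd hv (emp_rel _ _)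
  · intro h
    refine ⟨(next Ω (Sum.inl '' s ∪ Sum.inr '' t))^[2 ^ (Nat.log 2 Ω.size + 1)] Ω.root, ?_⟩
    rw [if_pos h, reach_rel]

theorem tau_length [Fintype V] (Ω : BDD (V ⊕ V)) :
    (tau Ω).length ≤ (Fintype.card V + 1) * 2 ^ (15 * (Nat.log 2 Ω.size + 1) ^ 2) := by
  set L := Nat.log 2 Ω.size + 1 with hL
  have hM : Ω.size ≤ 2 ^ L := (Nat.lt_pow_succ_log_self (by norm_num) _).le
  have hN : 1 ≤ Ω.size := by
    have := Ω.root.2; omega
  set S := (10 * Ω.size) ^ L * (24 * (Fintype.card V + 1)) with hS
  have hSpos : 24 ≤ S := by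
    rw [hS]
    have : 0 < (10 * Ω.size) ^ L := by positivity
    nlinarith
  have h1 : (tau Ω).length ≤ Ω.size * (S + 3) + 2 := by
    have := bigUnion_length ((List.finRange Ω.size).map (part Ω)) S (by
        intro π hπ
        rw [List.mem_map] at hπ
        obtain ⟨w, -, rfl⟩ := hπ
        unfold part
        split_ifs
        · exact reach_length Ω L _ _
        · have : (emp : Prog V).length = 2 := rfl
          omega)
    rw [List.length_map, List.length_finRange] at this
    exact this
  have h2 : Ω.size * (S + 3) + 2 ≤ 10 * Ω.size * S := by nlinarith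
  have h3 : 10 * Ω.size * S = (10 * Ω.size) ^ (L + 1) * 24 * (Fintype.card V + 1) := by
    rw [hS, pow_succ]; ring
  have hL1 : 1 ≤ L := by omega
  have h4 : 10 * Ω.size ≤ 2 ^ (5 * L) := by
    calc 10 * Ω.size ≤ 2 ^ 4 * 2 ^ L := by
          have : 10 ≤ 2 ^ 4 := by norm_num
          exact Nat.mul_le_mul this hM
      _ = 2 ^ (4 + L) := (pow_add 2 4 L).symm
      _ ≤ 2 ^ (5 * L) := Nat.pow_le_pow_right (by norm_num) (by omega)
  have h5 : (10 * Ω.size) ^ (L + 1) * 24 ≤ 2 ^ (15 * L ^ 2) := by
    calc (10 * Ω.size) ^ (L + 1) * 24 ≤ (2 ^ (5 * L)) ^ (L + 1) * 2 ^ 5 := by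
          apply Nat.mul_le_mul (Nat.pow_le_pow_left h4 _) (by norm_num)
      _ = 2 ^ (5 * L * (L + 1) + 5) := by rw [← pow_mul, ← pow_add]
      _ ≤ 2 ^ (15 * L ^ 2) := Nat.pow_le_pow_right (by norm_num) (by nlinarith)
  calc (tau Ω).length ≤ 10 * Ω.size * S := h1.trans h2
    _ = (10 * Ω.size) ^ (L + 1) * 24 * (Fintype.card V + 1) := h3
    _ ≤ 2 ^ (15 * L ^ 2) * (Fintype.card V + 1) := Nat.mul_le_mul_right _ h5
    _ = (Fintype.card V + 1) * 2 ^ (15 * L ^ 2) := by ring

/-- There is a correct translation of BDDs over `V ∪ V'` into mental programs over `V` whose output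
on a BDD with `N` nodes has length at most `(|V| + 1) · 2 ^ (15 (log₂ N + 1)²)`. -/
theorem result : ∃ τ : (V : Type) → [Fintype V] → BDD (V ⊕ V) → Prog V,
    ∀ (V : Type) [Fintype V] (Ω : BDD (V ⊕ V)),
      (∀ s t : Set V, (τ V Ω).Rel s t ↔ Ω.Rel s t) ∧
      (τ V Ω).length ≤ (Fintype.card V + 1) * 2 ^ (15 * (Nat.log 2 Ω.size + 1) ^ 2) :=
  ⟨fun _ _ Ω => tau Ω, fun _ _ Ω => ⟨tau_rel Ω, tau_length Ω⟩⟩

end Pool.Agent.Results.MP_811ee8_lc.QuasiPolynomial
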